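import Pool.Agent.Helper39.TW.Stmts

/-! Module CUT: Lemma CUT (proof file (3.4)). -/

namespace TwoWalk

open Finset

theorem st_CUT (h0 : ST_F0) (hX : ST_X) (h2 : ST_ST2) : ST_CUT := by
  classical
  intro V _ _ G S a c b h3c hK33 hSc hNC hRa hRc hRb hac hba hbc
  have h3 : 3 ≤ S.card := by
    have hsub : ({a, b, c} : Finset V) ⊆ S := by
      intro v hv
      simp only [Finset.mem_insert, Finset.mem_singleton] at hv
      rcases hv with rfl | rfl | rfl
      · exact hRa.1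
      · exact hRb.1
      · exact hRc.1
    have hcard : ({a, b, c} : Finset V).card = 3 := by
      rw [Finset.card_eq_three]
      exact ⟨a, b, c, hba.symm, hac, hbc, rfl⟩
    rw [← hcard]
    exact Finset.card_le_card hsub
  obtain ⟨K, h₁, h₂, hF⟩ := h0 V G S a c hNC h3 hRa.1 hRc.1 hac
  obtain ⟨K', h₁', h₂', hF', -, hCh'⟩ := hX V G S a c ∅ K h₁ h₂ h3c hK33 hSc hNC hRa hRc hac hF
    (Finset.empty_subset _) (by intro v hv; exact absurd hv (Finset.notMem_empty v))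
  by_cases hb : b ∈ K'
  · exact ⟨K', h₁', h₂', hF', hb, hCh'⟩
  · obtain ⟨L, l₁, l₂, hFL, hbL⟩ := h2 V G S a c b K' h₁' h₂' hNC hRa.1 hRc.1 hac hF' hCh'
      (Finset.mem_sdiff.mpr ⟨hRb.1, hb⟩) hba hbc
    obtain ⟨L', l₁', l₂', hFL', hBL', hChL'⟩ := hX V G S a c {b} L l₁ l₂ h3c hK33 hSc hNC hRa hRc
      hac hFL (by simpa using hbL) (by intro v hv; rw [Finset.mem_singleton] at hv; rw [hv]; exact hRb)
    exact ⟨L', l₁', l₂', hFL', hBL' (Finset.mem_singleton_self b), hChL'⟩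

end TwoWalk
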