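import Pool.Agent.Helper39.TW.Stmts

/-! Module X: lexicographic maximum (proof file (3.3)). -/

namespace TwoWalk

open Finset

lemma x_ch_symm {V : Type} [DecidableEq V] {G : SimpleGraph V} {K : Finset V} {x y : V}
    (h : Ch G K x y) : Ch G K y x :=
  ⟨h.1, h.2.2.1, h.2.1, fun z hz D hD => (h.2.2.2 z hz D hD).symm⟩

lemma x_feas_symm {V : Type} [DecidableEq V] {G : SimpleGraph V} {S K : Finset V} {a c h₁ h₂ : V}
    (h : Feas G S a c K h₁ h₂) : Feas G S c a K h₂ h₁ :=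
  ⟨h.1, h.2.2.1, h.2.1, h.2.2.2.2.1, h.2.2.2.1, x_ch_symm h.2.2.2.2.2.1, h.2.2.2.2.2.2⟩

theorem st_X (h1 : ST_X1) (h3 : ST_X3) (h4 : ST_X4) : ST_X := by
  classical
  intro V _ _ G S a c B K₀ k₁ k₂ h3c hK33 hSc hNC hRa hRc hac hF₀ hBK₀ hBR
  let T : Finset (Finset V × V × V) :=
    Finset.univ.filter (fun p => Feas G S a c p.1 p.2.1 p.2.2 ∧ B ⊆ p.1)
  let R : Finset V → Finset V := fun K => K.filter (fun v => Rim G S v)
  let μ : Finset V × V × V → ℕ := fun p => (R p.1).card * (Fintype.card V + 1) + p.1.card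
  have hT : T.Nonempty := ⟨(K₀, k₁, k₂), by
    simp only [T, Finset.mem_filter, Finset.mem_univ, true_and]
    exact ⟨hF₀, hBK₀⟩⟩
  obtain ⟨⟨K, h₁, h₂⟩, hp, hmax⟩ := Finset.exists_max_image T μ hT
  have hp' : Feas G S a c K h₁ h₂ ∧ B ⊆ K := by
    simpa only [T, Finset.mem_filter, Finset.mem_univ, true_and] using hp
  obtain ⟨hF, hBK⟩ := hp'
  -- maximality in two forms
  have hmax1 : ∀ K' l₁ l₂, Feas G S a c K' l₁ l₂ → K ⊂ K' → False := by
    intro K' l₁ l₂ hF' hlt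
    have h := hmax (K', l₁, l₂) (by
      simp only [T, Finset.mem_filter, Finset.mem_univ, true_and]
      exact ⟨hF', hBK.trans hlt.1⟩)
    have hr : (R K).card ≤ (R K').card :=
      Finset.card_le_card (Finset.filter_subset_filter _ hlt.1)
    have hc : K.card < K'.card := Finset.card_lt_card hlt
    simp only [μ] at h
    have := Nat.mul_le_mul_right (Fintype.card V + 1) hr
    omega
  have hmax2 : ∀ K' l₁ l₂, Feas G S a c K' l₁ l₂ → (∀ v ∈ K, Rim G S v → v ∈ K') →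
      (∃ v ∈ K', v ∉ K ∧ Rim G S v) → False := by
    intro K' l₁ l₂ hF' hsub hex
    obtain ⟨v, hv, hvK, hvR⟩ := hex
    have h := hmax (K', l₁, l₂) (by
      simp only [T, Finset.mem_filter, Finset.mem_univ, true_and]
      exact ⟨hF', fun v hv => hsub v (hBK hv) (hBR v hv)⟩)
    have hlt : R K ⊂ R K' := by
      refine ⟨?_, ?_⟩
      · intro v hv
        simp only [R, Finset.mem_filter] at hv ⊢
        exact ⟨hsub v hv.1 hv.2, hv.2⟩
      · intro hh
        have : v ∈ R K := hh (by simp only [R, Finset.mem_filter]; exact ⟨hv, hvR⟩)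
        simp only [R, Finset.mem_filter] at this
        exact hvK this.1
    have hr : (R K).card + 1 ≤ (R K').card := Finset.card_lt_card hlt
    have hc : K.card ≤ Fintype.card V := Finset.card_le_univ K
    simp only [μ] at h
    have := Nat.mul_le_mul_right (Fintype.card V + 1) hr
    have h5 : ((R K).card + 1) * (Fintype.card V + 1)
        = (R K).card * (Fintype.card V + 1) + (Fintype.card V + 1) := by ring
    omega
  -- one neighbour in K
  have hone : ∀ y D, y ∈ S \ K → IsComp G ((S \ K).erase y) D → a ∉ D → c ∉ D →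
      ∃ w ∈ K, ∀ d ∈ D, ∀ v ∈ K, G.Adj d v → v = w := by
    intro y D hy hD haD hcD
    by_cases htwo : ∃ k ∈ K, ∃ l ∈ K, k ≠ l ∧ (∃ d ∈ D, G.Adj d k) ∧ ∃ d ∈ D, G.Adj d l
    · obtain ⟨K', hlt, hF'⟩ := h1 V G S a c K h₁ h₂ y D hNC hRa.1 hRc.1 hac hF hy hD haD hcD htwo
      exact (hmax1 K' h₁ h₂ hF' hlt).elim
    · by_cases hex : ∃ d ∈ D, ∃ v ∈ K, G.Adj d v
      · obtain ⟨d, hd, w, hw, hdw⟩ := hex
        refine ⟨w, hw, ?_⟩
        intro d' hd' v hv hdv
        by_contra hne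
        exact htwo ⟨v, hv, w, hw, hne, ⟨d', hd', hdv⟩, ⟨d, hd, hdw⟩⟩
      · obtain ⟨w, hw⟩ := hF.2.2.2.2.2.1.1.1
        refine ⟨w, hw, ?_⟩
        intro d hd v hv hdv
        exact (hex ⟨d, hd, v, hv, hdv⟩).elim
  have haM : a ∈ S \ K := by
    rw [Finset.mem_sdiff]; exact ⟨hRa.1, hF.2.1⟩
  have hcM : c ∈ S \ K := by
    rw [Finset.mem_sdiff]; exact ⟨hRc.1, hF.2.2.1⟩
  have hA : ∀ E, IsComp G ((S \ K).erase a) E → c ∈ E := by
    intro E hE
    by_contra hcE
    have haE : a ∉ E := fun h => (Finset.mem_erase.mp (hE.1 h)).1 rfl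
    obtain ⟨K', h', hF', hsub, hex⟩ := h3 V G S a c K h₁ h₂ E h3c hK33 hSc hNC hRa hRc hac hF hE hcE
      (hone a E haM hE haE hcE)
    exact hmax2 K' h₁ h' hF' hsub hex
  have hC : ∀ E, IsComp G ((S \ K).erase c) E → a ∈ E := by
    intro E hE
    by_contra haE
    have hcE : c ∉ E := fun h => (Finset.mem_erase.mp (hE.1 h)).1 rfl
    obtain ⟨K', h', hF', hsub, hex⟩ := h3 V G S c a K h₂ h₁ E h3c hK33 hSc hNC hRc hRa hac.symm
      (x_feas_symm hF) hE haE (hone c E hcM hE haE hcE)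
    exact hmax2 K' h' h₂ (x_feas_symm hF') hsub hex
  refine ⟨K, h₁, h₂, hF, hBK, hF.2.2.2.2.2.2, hcM, haM, ?_⟩
  intro y hy D hD
  by_contra hcon
  rw [not_or] at hcon
  exact h4 V G S a c K h₁ h₂ y D h3c hK33 hSc hNC hRa hRc hac hF hA hC hy hD hcon.2 hcon.1
    (hone y D hy hD hcon.2 hcon.1)

end TwoWalk
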